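import Pool.Agent.W203.BY.Stm
set_option autoImplicit false

/-! Project BY, part ARCH. -/

namespace Pool.Agent.W298.BY.ARCH

open Pool.Agent.W203.BY Filter Topology

section
variable {I : Type} [LinearOrder I] {a b z : I} {G : I → I → I}

lemma l_mul (h : Op G) (x y : I) : G a (G x y) = G (G a x) (G a y) := by
  have := h.bis a a x y
  rwa [h.refl] at this

lemma r_mul (h : Op G) (x y : I) : G (G x y) a = G (G x a) (G y a) := by
  have := h.bis x y a a
  rwa [h.refl] at this

lemma lr (h : Op G) (x : I) : G a (G x a) = G (G a x) a := by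
  rw [l_mul h, h.refl]

lemma l_le (h : Op G) (ha : ∀ x, a ≤ x) (x : I) : G a x ≤ x := by
  have := (h.m1 x).monotone (ha x)
  simp only [h.refl] at this
  exact this

lemma r_le (h : Op G) (ha : ∀ x, a ≤ x) (x : I) : G x a ≤ x := by
  have := (h.m2 x).monotone (ha x)
  rwa [h.refl] at this

/-- one application of `G` is monotone in both variables -/
lemma mono2 (h : Op G) {x x' y y' : I} (hx : x ≤ x') (hy : y ≤ y') : G x y ≤ G x' y' :=
  ((h.m1 y).monotone hx).trans ((h.m2 x').monotone hy)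

/-- `z < s → z < L s` -/
lemma up_l (h : Op G) (hn : ∀ n : ℕ, z < (G a)^[n] b)
    (hs : ∀ s, z < s → ∃ n : ℕ, (G a)^[n] b < s) {s : I} (hz : z < s) : z < G a s := by
  obtain ⟨n, hn'⟩ := hs s hz
  have h1 := h.m2 a hn'
  have h2 := hn (n + 1)
  rw [Function.iterate_succ_apply'] at h2
  exact h2.trans h1

/-- `z < s → z < R s` -/
lemma up_r (h : Op G) (ha : ∀ x, a ≤ x) (hn : ∀ n : ℕ, z < (G a)^[n] b)
    (hs : ∀ s, z < s → ∃ n : ℕ, (G a)^[n] b < s) {s : I} (hz : z < s) : z < G s a := by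
  by_contra hcon
  push Not at hcon
  have h1 : z < G s z := by
    have := h.m1 z hz
    simp only [h.refl] at this
    exact this
  have h2 : z < G (G s z) z := by
    have := h.m1 z h1
    simp only [h.refl] at this
    exact this
  obtain ⟨m, hm⟩ := hs _ h2
  have h3 : z < G a (G (G s z) z) := by
    have h4 := hn (m + 1)
    rw [Function.iterate_succ_apply'] at h4
    exact h4.trans (h.m2 a hm)
  have e : G a (G (G s z) z) = G (G a (G s a)) (G (G a z) z) := by
    rw [l_mul h (G s z) z, l_mul h s z, h.bis (G a s) (G a z) a z, lr h]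
  rw [e] at h3
  have h5 : G (G a (G s a)) (G (G a z) z) ≤ G (G a z) z := by
    have h6 : G a (G s a) ≤ G a z := (h.m2 a).monotone hcon
    have h7 : G (G a z) z ≤ z := by
      have := (h.m1 z).monotone (l_le h ha z)
      simp only [h.refl] at this
      exact this
    exact mono2 h h6 h7
  have h8 : G (G a z) z ≤ z := by
    have := (h.m1 z).monotone (l_le h ha z)
    simp only [h.refl] at this
    exact this
  exact absurd h3 (not_lt.2 (h5.trans h8))

/-- big intervals -/
def Big (a z : I) (G : I → I → I) (u v : I) : Prop :=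
  ∃ t, z < t ∧ G (G a u) (G t a) ≤ G (G a v) a

lemma big_lt' (h : Op G) (ha : ∀ x, a ≤ x) (hn : ∀ n : ℕ, z < (G a)^[n] b)
    (hs : ∀ s, z < s → ∃ n : ℕ, (G a)^[n] b < s) {u v : I} (hb : Big a z G u v) :
    G z u < G a v := by
  obtain ⟨t, ht, hle⟩ := hb
  have ht' : z < G a t := up_l h hn hs ht
  have e1 : G (G a (G a t)) (G (G a u) a) = G a (G (G a u) (G t a)) := by
    have h1 : G a (G (G a u) (G t a)) = G (G a (G a u)) (G a (G t a)) := l_mul h _ _
    have h2 : G (G a (G a u)) (G (G a t) a) = G (G a (G a t)) (G (G a u) a) := h.bis _ _ _ _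
    rw [h1, lr h t, h2]
  have e2 : G (G a (G z u)) a = G (G (G a z) a) (G (G a u) a) := by
    rw [l_mul h, r_mul h]
  have h3 : G (G a z) a < G a (G a t) := by
    rw [← lr h]
    exact ((h.m2 a).monotone (r_le h ha z)).trans_lt (h.m2 a ht')
  have h4 : G (G a (G z u)) a < G (G a (G a v)) a := by
    rw [e2]
    refine (h.m1 (G (G a u) a) h3).trans_le ?_
    simp only
    rw [e1, ← lr h (G a v)]
    exact (h.m2 a).monotone hle
  have h5 : G a (G z u) < G a (G a v) := (h.m1 a).lt_iff_lt.1 h4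
  exact (h.m2 a).lt_iff_lt.1 h5

lemma big_lt (h : Op G) (ha : ∀ x, a ≤ x) (haz : a < z) (hn : ∀ n : ℕ, z < (G a)^[n] b)
    (hs : ∀ s, z < s → ∃ n : ℕ, (G a)^[n] b < s) {u v : I} (hb : Big a z G u v) : u < v := by
  have h1 := big_lt' h ha hn hs hb
  have h2 : G a v < G z v := h.m1 v haz
  exact (h.m2 z).lt_iff_lt.1 (h1.trans h2)

lemma big_left (h : Op G) (hn : ∀ n : ℕ, z < (G a)^[n] b)
    (hs : ∀ s, z < s → ∃ n : ℕ, (G a)^[n] b < s) {u v : I} (hb : Big a z G u v) :
    Big a z G u (G u v) := by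
  obtain ⟨t, ht, hle⟩ := hb
  refine ⟨G a t, up_l h hn hs ht, ?_⟩
  have e1 : G (G a u) (G (G a t) a) = G (G (G a u) a) (G (G a u) (G t a)) := by
    have h1 : G (G (G a u) (G a u)) (G a (G t a)) = G (G (G a u) a) (G (G a u) (G t a)) :=
      h.bis _ _ _ _
    rw [h.refl] at h1
    rw [← lr h, h1]
  have e2 : G (G a (G u v)) a = G (G (G a u) a) (G (G a v) a) := by
    rw [l_mul h, r_mul h]
  rw [e1, e2]
  exact (h.m2 _).monotone hle

lemma big_right (h : Op G) (ha : ∀ x, a ≤ x) (hn : ∀ n : ℕ, z < (G a)^[n] b)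
    (hs : ∀ s, z < s → ∃ n : ℕ, (G a)^[n] b < s) {u v : I} (hb : Big a z G u v) :
    Big a z G (G u v) v := by
  obtain ⟨t, ht, hle⟩ := hb
  refine ⟨G t a, up_r h ha hn hs ht, ?_⟩
  have e1 : G (G a (G u v)) (G (G t a) a) = G (G (G a u) (G t a)) (G (G a v) a) := by
    rw [l_mul (a := a) h u v]
    exact h.bis _ _ _ _
  rw [e1]
  have h2 : G (G (G a u) (G t a)) (G (G a v) a) ≤ G (G (G a v) a) (G (G a v) a) :=
    (h.m1 _).monotone hle
  rwa [h.refl] at h2

end

theorem t_ARCH : S_ARCH := by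
  intro I _ a b z G ι ha hb h hι hcomp haz hn hs
  -- the step
  have hstep : ∀ p : {p : I × I // Big a z G p.1 p.2}, ∃ q : {p : I × I // Big a z G p.1 p.2},
      p.1.1 ≤ q.1.1 ∧ q.1.2 ≤ p.1.2 ∧
      ι (G z q.1.2) - ι (G a q.1.1) ≤ (ι (G z p.1.2) - ι (G a p.1.1)) / 2 := by
    rintro ⟨⟨u, v⟩, hb⟩
    simp only at hb
    set w1 := G u v with hw1
    have b1 : Big a z G u w1 := big_left h hn hs hb
    have b2 : Big a z G w1 v := big_right h ha hn hs hb
    set w2 := G w1 v with hw2
    have b3 : Big a z G w1 w2 := big_left h hn hs b2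
    have b4 : Big a z G w2 v := big_right h ha hn hs b2
    have l1 := big_lt h ha haz hn hs b1
    have l2 := big_lt h ha haz hn hs b2
    have l3 := big_lt h ha haz hn hs b3
    have l4 := big_lt h ha haz hn hs b4
    have h1 : ι (G z w1) < ι (G a w2) := hι (big_lt' h ha hn hs b3)
    by_cases hc : ι (G z w1) - ι (G a u) ≤ (ι (G z v) - ι (G a u)) / 2
    · exact ⟨⟨(u, w1), b1⟩, le_rfl, l2.le, hc⟩
    · refine ⟨⟨(w2, v), b4⟩, (l1.trans l3).le, le_rfl, ?_⟩
      push Not at hc
      simp only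
      linarith
  choose f hf using hstep
  have hab : Big a z G a b := ⟨b, hn 0, by rw [h.refl, lr h]⟩
  set p : ℕ → {p : I × I // Big a z G p.1 p.2} := fun n => f^[n] ⟨(a, b), hab⟩ with hp
  have hps : ∀ n, p (n + 1) = f (p n) := fun n => Function.iterate_succ_apply' _ _ _
  have hmono : Monotone fun n => (p n).1.1 := monotone_nat_of_le_succ fun n => by
    rw [hps]; exact (hf (p n)).1
  have hanti : Antitone fun n => (p n).1.2 := antitone_nat_of_succ_le fun n => by
    rw [hps]; exact (hf (p n)).2.1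
  obtain ⟨w, hw⟩ := hcomp _ _ hmono hanti
    (fun n => (big_lt h ha haz hn hs (p n).2).le)
  have hell : ∀ n, ι (G z (p n).1.2) - ι (G a (p n).1.1) ≤ (ι (G z b) - ι (G a a)) / 2 ^ n := by
    intro n
    induction n with
    | zero => simp [hp]
    | succ n ih =>
      rw [hps]
      have := (hf (p n)).2.2
      rw [pow_succ, ← div_div]
      linarith
  have hpos : 0 < ι (G z w) - ι (G a w) := sub_pos.2 (hι (h.m1 w haz))
  have hle : ∀ n : ℕ, ι (G z w) - ι (G a w) ≤ (ι (G z b) - ι (G a a)) / 2 ^ n := by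
    intro n
    have h1 : ι (G z w) ≤ ι (G z (p n).1.2) :=
      hι.monotone ((h.m2 z).monotone (hw n).2)
    have h2 : ι (G a (p n).1.1) ≤ ι (G a w) :=
      hι.monotone ((h.m2 a).monotone (hw n).1)
    have := hell n
    linarith
  have hlim : Tendsto (fun n : ℕ => (ι (G z b) - ι (G a a)) / 2 ^ n) atTop (𝓝 0) := by
    have := (tendsto_pow_atTop_nhds_zero_of_lt_one (r := (1 / 2 : ℝ)) (by norm_num)
      (by norm_num)).const_mul (ι (G z b) - ι (G a a))
    rw [mul_zero] at this
    refine this.congr fun n => ?_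
    rw [div_pow, one_pow]
    ring
  have := ge_of_tendsto' hlim hle
  linarith

end Pool.Agent.W298.BY.ARCH
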