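import Pool.Agent.W203.BY.Stm
set_option autoImplicit false

/-! Project BY, part JC. -/

namespace Pool.Agent.W298.BY.JC

open Pool.Agent.W203.BY Filter Topology

section
variable {I : Type} [LinearOrder I] {n : ℕ}

lemma mono_all {F : (Fin n → I) → I}
    (hm : ∀ (x : Fin n → I) (i : Fin n), Monotone (fun t : I => F (Function.update x i t)))
    {x y : Fin n → I} (h : ∀ j, x j ≤ y j) : F x ≤ F y := by
  classical
  have key : ∀ s : Finset (Fin n), F x ≤ F (s.piecewise y x) := by
    intro s
    induction s using Finset.induction_on with
    | empty => simp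
    | insert i s hi ih =>
      refine ih.trans ?_
      rw [Finset.piecewise_insert]
      have h1 := hm (s.piecewise y x) i (a := x i) (b := y i) (h i)
      simp only at h1
      have h2 : Function.update (s.piecewise y x) i (x i) = s.piecewise y x := by
        have : (s.piecewise y x) i = x i := Finset.piecewise_eq_of_notMem _ _ _ hi
        rw [← this, Function.update_eq_self]
      rwa [h2] at h1
  have := key Finset.univ
  rwa [Finset.piecewise_univ] at this

variable [TopologicalSpace I] [OrderTopology I] [DenselyOrdered I]

lemma upper {F : (Fin n → I) → I}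
    (hm : ∀ (x : Fin n → I) (i : Fin n), Monotone (fun t : I => F (Function.update x i t)))
    (hc : ∀ (x : Fin n → I) (i : Fin n), Continuous (fun t : I => F (Function.update x i t)))
    (x : Fin n → I) (c : I) (h : F x < c) : ∀ᶠ y in 𝓝 x, F y < c := by
  classical
  have key : ∀ s : Finset (Fin n), ∃ y : Fin n → I, (∀ j ∉ s, y j = x j) ∧ F y < c ∧
      ∀ j ∈ s, x j < y j ∨ (y j = x j ∧ ∀ t, t ≤ x j) := by
    intro s
    induction s using Finset.induction_on with
    | empty => exact ⟨x, fun _ _ => rfl, h, fun j hj => by simp at hj⟩
    | insert i s hi ih =>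
      obtain ⟨y, y1, y2, y3⟩ := ih
      by_cases htop : ∀ t, t ≤ x i
      · refine ⟨y, fun j hj => y1 j fun h => hj (Finset.mem_insert_of_mem h), y2, ?_⟩
        intro j hj
        rcases Finset.mem_insert.1 hj with rfl | hj
        · exact Or.inr ⟨y1 j hi, htop⟩
        · exact y3 j hj
      · push Not at htop
        have hne : (𝓝[>] (x i)).NeBot := nhdsGT_neBot_of_exists_gt htop
        have h1 : F (Function.update y i (x i)) < c := by
          rw [← y1 i hi, Function.update_eq_self]
          exact y2
        have h2 : ∀ᶠ t in 𝓝 (x i), F (Function.update y i t) < c :=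
          ((hc y i).tendsto (x i)).eventually (gt_mem_nhds h1)
        have h3 : ∀ᶠ t in 𝓝[>] (x i), F (Function.update y i t) < c :=
          h2.filter_mono nhdsWithin_le_nhds
        have h4 : ∀ᶠ t in 𝓝[>] (x i), x i < t := self_mem_nhdsWithin
        obtain ⟨t, ht1, ht2⟩ := (h3.and h4).exists
        refine ⟨Function.update y i t, ?_, ht1, ?_⟩
        · intro j hj
          rw [Finset.mem_insert, not_or] at hj
          rw [Function.update_of_ne hj.1]
          exact y1 j hj.2
        · intro j hj
          by_cases hji : j = i
          · subst hji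
            rw [Function.update_self]
            exact Or.inl ht2
          · rw [Function.update_of_ne hji]
            exact y3 j ((Finset.mem_insert.1 hj).resolve_left hji)
  obtain ⟨y, -, y2, y3⟩ := key Finset.univ
  have hev : ∀ᶠ y' in 𝓝 x, ∀ j, y' j ≤ y j := by
    rw [Filter.eventually_all]
    intro j
    rcases y3 j (Finset.mem_univ j) with h1 | ⟨h1, h2⟩
    · have : ∀ᶠ y' in 𝓝 x, y' j < y j :=
        ((continuous_apply j).tendsto x).eventually (gt_mem_nhds h1)
      exact this.mono fun y' h => h.le
    · exact Eventually.of_forall fun y' => by rw [h1]; exact h2 _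
  exact hev.mono fun y' hy' => (mono_all hm hy').trans_lt y2

end

theorem t_JC : S_JC := by
  intro a b n F hm hc
  rw [continuous_iff_continuousAt]
  intro x
  refine tendsto_order.2 ⟨fun c h => ?_, fun c h => upper hm hc x c h⟩
  exact upper (I := (Set.Icc a b)ᵒᵈ) (F := F) (fun x i => (hm x i).dual) hc x c h

end Pool.Agent.W298.BY.JC
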